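import Pool.Agent.H382R2.Final0

open Filter

namespace Pool.Agent.Results.MP_400eac_nt.HalfSpacing

/-- multiplicity of `s` as a zero of the Riemann zeta function (order of vanishing at `s`) -/
noncomputable def zmult (s : ℂ) : ℕ := analyticOrderNatAt riemannZeta s

/-- the number of nontrivial zeros of `ζ` with ordinate in `(0, t]`, with multiplicity -/
noncomputable def NZ (t : ℝ) : ℕ :=
  ∑ᶠ s ∈ {s : ℂ | riemannZeta s = 0 ∧ 0 < s.re ∧ s.re < 1 ∧ 0 < s.im ∧ s.im ≤ t}, zmult s

/-- for `n ≥ 1`: the `n`-th positive ordinate of a nontrivial zero of `ζ`, the ordinates being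
listed in nondecreasing order and repeated according to multiplicity -/
noncomputable def ord (n : ℕ) : ℝ := sInf {t : ℝ | n ≤ NZ t}

theorem eventually_pos (RH : RiemannHypothesis)
    (hfin : {s : ℂ | riemannZeta s = 0 ∧ 0 < s.re ∧ s.re < 1 ∧ 0 < s.im ∧ 2 ≤ zmult s}.Finite) :
    ∀ᶠ n : ℕ in atTop, 0 < ord (n + 1) - ord n := by
  obtain ⟨T1, hT1⟩ : ∃ T1 : ℝ, ∀ s ∈ {s : ℂ | riemannZeta s = 0 ∧ 0 < s.re ∧ s.re < 1 ∧
      0 < s.im ∧ 2 ≤ zmult s}, s.im < T1 := by
    obtain ⟨M, hM⟩ := (hfin.image Complex.im).bddAbove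
    refine ⟨M + 1, fun s hs => ?_⟩
    have := hM (Set.mem_image_of_mem _ hs)
    linarith
  filter_upwards [SG.ord_tendsto.eventually_ge_atTop T1, eventually_ge_atTop 1] with n hn hn1
  change 0 < SG.ord (n + 1) - SG.ord n
  have hmono : SG.ord n ≤ SG.ord (n + 1) := SG.ord_mono hn1 (by omega)
  rw [sub_pos]
  refine lt_of_le_of_ne hmono fun heq => ?_
  set t := SG.ord n with ht
  have htpos : 0 < t := SG.ord_pos hn1
  have hc := SG.ord_count t htpos
  have hfin2 : {m : ℕ | 1 ≤ m ∧ SG.ord m = t}.Finite := by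
    apply (Set.finite_Iic (SG.NZ t)).subset
    rintro m ⟨h1, h2⟩
    exact (SG.ord_le_iff h1 t).mp h2.le
  have h2 : 2 ≤ {m : ℕ | 1 ≤ m ∧ SG.ord m = t}.ncard := by
    have hsub : ({n, n + 1} : Set ℕ) ⊆ {m : ℕ | 1 ≤ m ∧ SG.ord m = t} := by
      intro m hm
      rcases hm with rfl | hm
      · exact ⟨hn1, ht.symm⟩
      · rw [Set.mem_singleton_iff] at hm
        subst hm
        exact ⟨by omega, heq.symm⟩
    have := Set.ncard_le_ncard hsub hfin2
    rwa [Set.ncard_pair (by omega)] at this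
  rw [hc] at h2
  have hline : ∀ s : ℂ, 0 < s.im → riemannZeta s = 0 → s.re = 1 / 2 := by
    intro s hs h0
    apply RH s h0
    · rintro ⟨k, hk⟩
      rw [hk] at hs
      simp at hs
    · intro h; rw [h] at hs; simp at hs
  have hle : ∑ᶠ s ∈ {s : ℂ | riemannZeta s = 0 ∧ 0 < s.re ∧ s.re < 1 ∧ s.im = t}, SG.zmult s < 2 := by
    by_cases h0 : riemannZeta (⟨1 / 2, t⟩ : ℂ) = 0
    · have e : {s : ℂ | riemannZeta s = 0 ∧ 0 < s.re ∧ s.re < 1 ∧ s.im = t} = {(⟨1 / 2, t⟩ : ℂ)} := by
        ext s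
        constructor
        · rintro ⟨a1, a2, a3, a4⟩
          have := hline s (by rw [a4]; exact htpos) a1
          rw [Set.mem_singleton_iff]
          exact Complex.ext this a4
        · intro hs
          rw [Set.mem_singleton_iff] at hs
          subst hs
          exact ⟨h0, by norm_num, by norm_num, rfl⟩
      rw [e, finsum_mem_singleton]
      by_contra hcon
      push Not at hcon
      have := hT1 (⟨1 / 2, t⟩ : ℂ) ⟨h0, by norm_num, by norm_num, htpos, hcon⟩
      simp only at this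
      linarith
    · have e : {s : ℂ | riemannZeta s = 0 ∧ 0 < s.re ∧ s.re < 1 ∧ s.im = t} = ∅ := by
        ext s
        simp only [Set.mem_setOf_eq, Set.mem_empty_iff_false, iff_false]
        rintro ⟨a1, a2, a3, a4⟩
        have := hline s (by rw [a4]; exact htpos) a1
        apply h0
        rw [← a1]
        congr 1
        exact Complex.ext this.symm a4.symm
      rw [e, finsum_mem_empty]
      norm_num
  omega

/-- The constant `1/2 + ε` is admissible for every `ε > 0` (ordinates listed with multiplicity);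
on the Riemann hypothesis, if only finitely many zeros are multiple, the small gaps are gaps between
consecutive distinct ordinates. -/
theorem result :
    (∀ ε : ℝ, 0 < ε → ∃ᶠ n : ℕ in atTop,
      ord (n + 1) - ord n < (1 / 2 + ε) * (2 * Real.pi / Real.log n)) ∧
    (RiemannHypothesis →
      {s : ℂ | riemannZeta s = 0 ∧ 0 < s.re ∧ s.re < 1 ∧ 0 < s.im ∧ 2 ≤ zmult s}.Finite →
      ∀ ε : ℝ, 0 < ε → ∃ᶠ n : ℕ in atTop, 0 < ord (n + 1) - ord n ∧
        ord (n + 1) - ord n < (1 / 2 + ε) * (2 * Real.pi / Real.log n)) := by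
  have h1 : ∀ ε : ℝ, 0 < ε → ∃ᶠ n : ℕ in atTop,
      ord (n + 1) - ord n < (1 / 2 + ε) * (2 * Real.pi / Real.log n) := by
    intro ε hε
    exact SG.small_gap_freq (1 / 2 + ε) (by linarith)
  refine ⟨h1, fun RH hfin ε hε => ?_⟩
  exact (h1 ε hε).and_eventually (eventually_pos RH hfin) |>.mono fun n hn => ⟨hn.2, hn.1⟩

end Pool.Agent.Results.MP_400eac_nt.HalfSpacing
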